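import Pool.Agent.Helper78K9.GO.Main

/-!
# Every labelled tree has aspherical orientations; a bound by the Alexander polynomial

A labelled graph `T : LGraph V E` has vertices `V`, edges `E`, the edge `e` joins `T.a e` and `T.b e`
and is labelled by the vertex `T.lab e`. `T.IsTree`: the graph is connected and `|V| = |E| + 1`;
`T.Compressed`: no edge is labelled by one of its end points. An orientation is `o : E → Bool`
(`T.ini o e`, `T.ter o e` are the initial and the terminal vertex of `e`), and `T.cx o` is the
2-complex of the presentation with the generators `V` and the relators
`i(e) λ(e) t(e)⁻¹ λ(e)⁻¹` (`wirt`). With one more 2-cell attached along a generator `v₀` it becomes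
the finite contractible 2-complex `T.plus o v₀` (part (1)), so that all subcomplexes of `T.cx o` are
subcomplexes of a finite contractible 2-complex.

The definitions `Cx`, `Cx.Contractible`, `Cx.IsFin`, `Sub`, `fox`, `Asph` are those of the starting
library `Pool.Agent.R655.LI` (2-complexes with one vertex; `Sub K' K`: `K'` is a subcomplex of `K`;
`Asph K'`: the boundary operator `C₂ → C₁` of the universal covering is injective, i.e.
`π₂(K') = 0`). `AllAsph K`: all subcomplexes of `K` are aspherical.

`T.alex o σ` is the Alexander matrix of the labelled oriented tree (the rows
`X_{i(e)} + (t - 1) X_{λ(e)} - t X_{t(e)}`) without the column of `v₀`; its determinant is the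
Alexander polynomial.
-/

set_option autoImplicit false

namespace Pool.Agent.Results.MP_6de9fc_gt.GoodOrientations

open Polynomial
open Pool.Agent.R655.LI Pool.Agent.Helper78K9.GO

/-- Let `T` be a labelled tree with at least one edge such that no edge is labelled by one of its end
points. (1) For all orientations, the complex with one more 2-cell attached along a generator is a
finite contractible 2-complex. (2) For at least four orientations `o`, all subcomplexes of `T.cx o`
are aspherical. (3) For every orientation `o`, the sum of the absolute values of the coefficients of
the Alexander polynomial of the labelled oriented tree `(T, o)` is smaller than the number of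
orientations `o'` such that all subcomplexes of `T.cx o'` are aspherical. -/
theorem result {V E : Type} [Finite V] [Fintype E] [Nonempty E] [DecidableEq V] [DecidableEq E]
    (T : LGraph V E) (hT : T.IsTree) (hc : T.Compressed) :
    (∀ (o : E → Bool) (v₀ : V), (T.plus o v₀).Contractible ∧ (T.plus o v₀).IsFin ∧
      Nonempty (Sub (T.cx o) (T.plus o v₀))) ∧
    4 ≤ Nat.card {o : E → Bool // AllAsph (T.cx o)} ∧
    ∀ (o : E → Bool) (v₀ : V) (σ : E ≃ {v : V // v ≠ v₀}),
      1 + ∑ k ∈ (T.alex o σ).det.support, |(T.alex o σ).det.coeff k| ≤
        (Nat.card {o : E → Bool // AllAsph (T.cx o)} : ℤ) :=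
  main T hT hc

end Pool.Agent.Results.MP_6de9fc_gt.GoodOrientations
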