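import Pool.Agent.Helper78K9.GO4.Main
import Pool.Agent.Helper78K9.GO3.Main

/-!
# A unique forest of corners of minimal height

Let `K` be a finite 2-complex with one vertex: 1-cells `V`, 2-cells `R`, attaching words
`r : R → FreeGroup V` (`Cx`, from the starting library `Pool.Agent.R655.LI`; `K.Pi` is its fundamental
group). The corner `k` of the 2-cell `j` lies between the letters `k - 1` and `k` (cyclically) of the
reduced word of `r j`. It has

* an edge between the generators of these two letters (`crn K j k`, the difference of the two unit
  vectors), and
* a height `h (pre K j k)`, where `h : π₁(K) → ℝ` is a homomorphism and `pre K j k` is the product of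
  the letters before the corner.

A choice `τ` of one corner in each 2-cell is a *forest* if its edges are the edges of a forest on the
set `V` of generators, i.e. if their vectors are linearly independent (`IsForest K τ`); its total height
is `total K h τ`.

**Theorem (1).** If exactly one forest has minimal total height for some homomorphism
`h : π₁(K) → ℝ`, then all subcomplexes of `K` are aspherical.

The classical case is that every 2-cell has only one lowest corner and these corners form a forest:
homogeneous Adian presentations whose left graph is a forest (Adian, Remmers), labelled oriented trees
whose initial or terminal graph is a tree (Howie, Gersten). Here the lowest corners of the single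
2-cells need not form a forest: only the total height is minimal among all forests.

**Theorem (2)** is the case of labelled oriented trees, whose complexes `T.cx o` are subcomplexes of
finite contractible 2-complexes (`T.plus o v₀`, one more 2-cell attached along a generator): if exactly
one of the orientations `c` of the labelled tree `T` such that the initial graph of `c` is a tree
(`IniTree T c`; their number is odd) is nearest to `o` in the Hamming distance, or exactly one is
farthest from `o`, then all subcomplexes of `T.cx o` are aspherical. (The orientations `c` correspond to
the forests of corners of `T.cx o`, the distance to the total height.) Distance `0` and `|E|` are the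
cases of Howie and Gersten. By computer: for random reduced labelled oriented trees with 11 vertices the
criterion holds for about 75 percent, the initial or terminal graph is a tree for about 30 percent.

The proof uses no diagrams: after a change of basis over `ℤ` given by the forest `τ`, a nontrivial
element of the kernel of the boundary operator `C₂ → C₁` of the universal covering gives a closed walk
of height zero in the digraph of the exchanges of `τ` (replace the edge of one 2-cell by an edge of
another corner of another 2-cell), and by a comparison lemma for closed walks (as in the analysis of the
matroid intersection algorithm) another forest whose total height is at most that of `τ`.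

`Sub K' K`: `K'` is a subcomplex of `K`; `Asph` (the boundary operator `C₂ → C₁` of the universal
covering is injective, i.e. `π₂ = 0`), `Contractible`, `IsFin` are from `Pool.Agent.R655.LI`; `LGraph`,
`IsTree`, `Compressed`, `cx`, `plus` from `Pool.Agent.Helper78K9.GO`.
-/

set_option autoImplicit false

namespace Pool.Agent.Results.MP_6de9fc_gt.MinimalCornerForest

open Pool.Agent.Helper78K9 Pool.Agent.R655.LI Pool.Agent.Helper78K9.GO Pool.Agent.Helper78K9.GO3

/-- (1) Let `K` be a finite 2-complex with one vertex and `h` a homomorphism of its fundamental group to
the additive group of real numbers. If a forest `τ` of corners (one corner in each 2-cell) has a smaller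
total height than all other forests of corners, then all subcomplexes of `K` are aspherical.
(2) Let `T` be a labelled tree, no edge of which is labelled by one of its end points, and `o` an
orientation. Let `c` be an orientation whose initial graph is a tree. If `o` is nearer to `c` than to
all other orientations whose initial graph is a tree, or farther from `c` than from all others, then
all subcomplexes of `T.cx o` are aspherical; and `T.cx o` is a subcomplex of a finite contractible
2-complex. -/
theorem result :
    (∀ (K : Cx) [Finite K.V] [Fintype K.R] (h : K.Pi →* Multiplicative ℝ) (τ : K.R → ℕ),
      GO4.IsForest K τ →
      (∀ τ', GO4.IsForest K τ' → τ' ≠ τ → GO4.total K h τ < GO4.total K h τ') →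
      ∀ (K' : Cx) (_ : Sub K' K), Asph K') ∧
    (∀ (V E : Type) [Finite V] [Fintype E] (T : LGraph V E), T.IsTree → T.Compressed →
      ∀ o c : E → Bool, IniTree T c →
      ((∀ c', IniTree T c' → c' ≠ c → hammingDist o c < hammingDist o c') ∨
        (∀ c', IniTree T c' → c' ≠ c → hammingDist o c' < hammingDist o c)) →
      (∀ v₀ : V, (T.plus o v₀).Contractible ∧ (T.plus o v₀).IsFin ∧
        Nonempty (Sub (T.cx o) (T.plus o v₀))) ∧
      ∀ (K' : Cx) (_ : Sub K' (T.cx o)), Asph K') := by
  classical
  refine ⟨fun K _ _ h τ hτ hmin => GO4.unique_min h τ hτ hmin,
    fun V E _ _ T hT hc o c hi h => ⟨fun v₀ => ⟨⟨plus_pi T hT o v₀, plus_bdry T hT o v₀⟩,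
      ⟨‹Finite V›, (inferInstance : Finite (Option E))⟩, ⟨T.incl o v₀⟩⟩, main T hT hc o c hi h⟩⟩

end Pool.Agent.Results.MP_6de9fc_gt.MinimalCornerForest
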