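import Pool.Agent.Helper78K9.GO2.Main

/-!
# Subdivided labelled trees: a polynomial proportion of the orientations is aspherical

Let `a b : E → V` be the end points of the edges of a tree (`IsTr a b`). In `chain a b k w : LGraph _ _`
the edge `e` is replaced by a path with `k e` new inner vertices, i.e. with the `k e + 1` edges
`(e, 0), …, (e, k e)`, and the edge `(e, i)` is labelled by `w e i`, a vertex of the original tree
(`nd a b k e n` is the `n`-th vertex of the path; the vertices are `V ⊕ (Σ e, Fin (k e))`). These are
all labelled trees: take for `V` the labels and the vertices of degree different from two.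

`LGraph`, `IsTree`, `Compressed`, `cx o` (the 2-complex with the relators `i(e) λ(e) t(e)⁻¹ λ(e)⁻¹`),
`plus o v₀` (one more 2-cell along the generator `v₀`) and `AllAsph` (all subcomplexes are aspherical)
are as in `GoodOrientations`; `Cx`, `Sub`, `Contractible`, `IsFin`, `Asph` are from the starting
library `Pool.Agent.R655.LI`.

`al a b k w e` is the sequence `a e, w e 0, …, w e (k e), b e`; `UMin s τ`: the walk on `ℤ` with the
steps `+1` (`true`) and `-1` (`false`) given by `s` attains its minimum at the time `τ` and at no
other time.
-/

set_option autoImplicit false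

namespace Pool.Agent.Results.MP_6de9fc_gt.SubdividedTrees

open Pool.Agent.R655.LI Pool.Agent.Helper78K9.GO Pool.Agent.Helper78K9.GO2

/-- Let `T = chain a b k w` be a subdivided tree such that no edge is labelled by one of its end
points. (1) `T` is a labelled tree, and for all orientations the complex with one more 2-cell along a
generator is a finite contractible 2-complex. (2) Choose a time `τ e` in each path; if the edges which
join the `τ e`-th and the next term of `a e, w e 0, …, w e (k e), b e` form a tree, then for all
orientations such that the walk along each path `e` has its minimum exactly at the time `τ e`, all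
subcomplexes of `T.cx o` are aspherical. (3) Among the `2 ^ ∑ (k e + 1)` orientations, the proportion
of those `o` such that all subcomplexes of `T.cx o` are aspherical is at least
`∏ 1 / (4 (k e + 1))`. -/
theorem result {V E : Type} [Finite V] [Fintype E] (a b : E → V) (hT : IsTr a b) (k : E → ℕ)
    (w : ∀ e, Fin (k e + 1) → V) (h0 : ∀ e, w e 0 ≠ a e)
    (h1 : ∀ e, w e (Fin.last (k e)) ≠ b e) :
    ((chain a b k w).IsTree ∧ (chain a b k w).Compressed ∧
      ∀ (o : (Σ e, Fin (k e + 1)) → Bool) (v₀ : V ⊕ (Σ e, Fin (k e))),
        ((chain a b k w).plus o v₀).Contractible ∧ ((chain a b k w).plus o v₀).IsFin ∧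
          Nonempty (Sub ((chain a b k w).cx o) ((chain a b k w).plus o v₀))) ∧
    (∀ τ : E → ℕ, (∀ e, τ e ≤ k e + 1) →
      IsTr (fun e => al a b k w e (τ e)) (fun e => al a b k w e (τ e + 1)) →
      ∀ o : (Σ e, Fin (k e + 1)) → Bool, (∀ e, UMin (fun i => o ⟨e, i⟩) (τ e)) →
        AllAsph ((chain a b k w).cx o)) ∧
    2 ^ (∑ e, (k e + 1)) ≤ (∏ e, (4 * (k e + 1))) *
      Nat.card {o : (Σ e, Fin (k e + 1)) → Bool // AllAsph ((chain a b k w).cx o)} :=
  ⟨⟨chain_tree w hT, chain_compressed w h0 h1, fun o v₀ => plus_all hT o v₀⟩,
    fun τ hτ hC o hU => criterion hT h0 h1 τ hτ hC o hU, count hT h0 h1⟩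

end Pool.Agent.Results.MP_6de9fc_gt.SubdividedTrees
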