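import Pool.Agent.Helper78K9.GO4.Two

/-!
# Two forests of corners of minimal height

Let `K` be a finite 2-complex with one vertex: 1-cells `V`, 2-cells `R`, attaching words
`r : R → FreeGroup V` (`Cx`, from the starting library `Pool.Agent.R655.LI`; `K.Pi` is its fundamental
group), with one 2-cell less than 1-cells. For example `K` can be a finite contractible 2-complex with
one vertex without one open 2-cell, or the 2-complex of a labelled oriented tree.

The corner `k` of the 2-cell `j` lies between the letters `k - 1` and `k` (cyclically) of the reduced
word of `r j`. It has an edge between the generators of these letters (`crn K j k`, the difference of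
the unit vectors) and a height `h (pre K j k)`, where `h : π₁(K) → ℝ` is a homomorphism and `pre K j k`
is the product of the letters before the corner. A choice `τ` of one corner in each 2-cell is a forest
(`IsForest K τ`) if its edges are the edges of a forest on `V` (then a spanning tree), i.e. if their
vectors are linearly independent; its total height is `total K h τ`. (By `MinimalCornerForest`, all
subcomplexes of `K` are aspherical if exactly one forest has minimal total height.)

**Theorem.** Suppose that exactly two forests `τ`, `τ'` have minimal total height. Then the 2-cells where
they differ have a cyclic order `e 0, …, e (m - 1)` such that all the choices which are obtained from `τ`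
by the replacement of the corner of `e k` by the edge of the corner `τ' (e (k + 1))` of the next 2-cell
are forests (`IsOrder`); and if, for such an order, the element
`∏ k < m, (pre K (e k) (τ' (e k)))⁻¹ * pre K (e k) (τ (e k))` (the product of the paths in the 2-cells
from the corner of `τ'` to the corner of `τ`) has infinite order in `π₁(K)`, then all subcomplexes of
`K` are aspherical.

So for such complexes a subcomplex with `π₂ ≠ 0` would imply that one explicit element of `π₁(K)` has
finite order. By computer, for random reduced labelled oriented trees with 11 vertices one of the two
homomorphisms `h = ±1` has exactly one (about 75 percent) or exactly two (about 20 percent) minimal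
forests.

`Sub K' K`: `K'` is a subcomplex of `K`; `Asph` (the boundary operator `C₂ → C₁` of the universal
covering is injective, i.e. `π₂ = 0`) is from `Pool.Agent.R655.LI`.
-/

set_option autoImplicit false

namespace Pool.Agent.Results.MP_6de9fc_gt.TwoMinimalForests

open Pool.Agent.R655.LI Pool.Agent.Helper78K9.GO4

/-- Let `K` be a finite 2-complex with one vertex and one 2-cell less than 1-cells, and `h` a
homomorphism of its fundamental group to the additive group of real numbers. Suppose that the forests
`τ ≠ τ'` of corners (one corner in each 2-cell) have the same total height and all other forests have a
larger one. Then there is an order `e` as above, and for all such `e`: if the product `wrd K τ τ' e m`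
(`m` the number of the 2-cells where `τ` and `τ'` differ) has infinite order in `π₁(K)`, then all
subcomplexes of `K` are aspherical. -/
theorem result (K : Cx) [Finite K.V] [Fintype K.R] [DecidableEq K.R]
    (hcard : Nat.card K.V = Nat.card K.R + 1) (h : K.Pi →* Multiplicative ℝ) (τ τ' : K.R → ℕ)
    (hτ : IsForest K τ) (hτ' : IsForest K τ') (hne : τ ≠ τ') (heq : total K h τ = total K h τ')
    (hmin : ∀ τ'', IsForest K τ'' → τ'' ≠ τ → τ'' ≠ τ' → total K h τ < total K h τ'') :
    (∃ e, IsOrder K τ τ' e) ∧ ∀ e, IsOrder K τ τ' e →
      (∀ n, 0 < n → wrd K τ τ' e (dfr K τ τ').card ^ n ≠ 1) →
        ∀ (K' : Cx) (_ : Sub K' K), Asph K' :=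
  two_min hcard h hτ hτ' hne heq hmin

end Pool.Agent.Results.MP_6de9fc_gt.TwoMinimalForests
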